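import Pool.Agent.Lib.MP_5b0a7e_nt.Count

/-!
# The L2 sieve for an arbitrary system of distinct residue classes

`f n q` is the residue class mod `q` by which the site `n` is hit.
-/

namespace Pool.Agent.L2Apps

open Finset LPAP

open Classical in
/-- The class map: which site `n ∈ S` has residue `f n q = c`. -/
noncomputable def chiG (f : ℕ → ℕ → ℕ) (S : Finset ℕ) (q c : ℕ) : Option S :=
  if h : ∃ i : S, f i.1 q = c then some (Classical.choose h) else none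

lemma chiG_some {f : ℕ → ℕ → ℕ} {S : Finset ℕ} {q c : ℕ} {i : S} (h : chiG f S q c = some i) :
    f i.1 q = c := by
  unfold chiG at h
  split_ifs at h with h1
  have h2 := Classical.choose_spec h1
  have h3 := Option.some.inj h
  rwa [h3] at h2

lemma chiG_of_eq {f : ℕ → ℕ → ℕ} {S : Finset ℕ} {q c : ℕ}
    (hinj : ∀ m ∈ S, ∀ n ∈ S, f m q = f n q → m = n) {i : S} (h : f i.1 q = c) :
    chiG f S q c = some i := by
  unfold chiG
  have h1 : ∃ i : S, f i.1 q = c := ⟨i, h⟩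
  rw [dif_pos h1]
  congr 1
  have h2 := Classical.choose_spec h1
  exact Subtype.ext (hinj _ (Classical.choose h1).2 _ i.2 (h2.trans h.symm))

lemma pc_chiG {f : ℕ → ℕ → ℕ} {S : Finset ℕ} {q : ℕ}
    (hlt : ∀ n ∈ S, f n q < q) (hinj : ∀ m ∈ S, ∀ n ∈ S, f m q = f n q → m = n) (i : S) :
    pc (chiG f S) q (some i) = 1 / (q : ℝ) := by
  unfold pc
  have h1 : (Finset.range q).filter (fun c => chiG f S q c = some i) = {f i.1 q} := by
    ext c
    rw [Finset.mem_filter, Finset.mem_range, Finset.mem_singleton]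
    constructor
    · rintro ⟨_, hc2⟩
      exact (chiG_some hc2).symm
    · intro hc
      rw [hc]
      exact ⟨hlt _ i.2, chiG_of_eq hinj rfl⟩
  rw [h1, Finset.card_singleton]
  push_cast
  rfl

/-- The sieve for a general system of classes: one `b ≤ X` in a given class mod `W`
such that every site of `S` is hit by a prime `q` with `N ^ 5 < q ≤ (N ^ 5) ^ 2 ^ log₈ N`. -/
theorem exists_all_hit_gen : ∃ A : ℝ, 0 < A ∧ ∃ N₀ : ℕ, ∀ N : ℕ, N₀ ≤ N →
    ∀ (a Y' X : ℕ), a ≠ 0 → ∀ (S : Finset ℕ), S.card ≤ N → a.primeFactors.card ≤ N ^ 5 →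
    ∀ (f : ℕ → ℕ → ℕ), (∀ q, q.Prime → N ^ 5 < q → ¬ q ∣ a → (∀ n ∈ S, f n q < q) ∧
      ∀ m ∈ S, ∀ n ∈ S, f m q = f n q → m = n) →
    ∀ (W : ℕ), 0 < W → W.Coprime a → (∀ p, p.Prime → p ∣ W → p ≤ N ^ 5) →
    Y' ≤ X →
    (2 : ℝ) ^ a.primeFactors.card * Real.exp (A * N) < ((X : ℝ) - Y') / W * (a.totient / a) →
    ∀ b₀ : ℕ, ∃ b : ℕ, Y' < b ∧ b ≤ X ∧ b ≡ b₀ [MOD W] ∧ b.Coprime a ∧
      ∀ n ∈ S, ∃ q : ℕ, q.Prime ∧ N ^ 5 < q ∧ q ≤ (N ^ 5) ^ 2 ^ (Nat.log 8 N) ∧ ¬ q ∣ a ∧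
        b % q = f n q := by
  have he9 : 1 ≤ 2 * Real.exp 9 := by
    have := Real.add_one_le_exp (9 : ℝ); linarith
  obtain ⟨A, hA, N₀, hsieve⟩ := sieve (2 * Real.exp 9) he9
  refine ⟨A, hA, max N₀ 2, ?_⟩
  intro N hN a Y' X ha S hScard haN f hf W hW hWa hWp hYX hmain b₀
  have hN0 : N₀ ≤ N := le_trans (le_max_left _ _) hN
  have hN2 : 2 ≤ N := le_trans (le_max_right _ _) hN
  set z := N ^ 5 with hz
  have hz2 : 2 ≤ z := by
    rw [hz]
    calc 2 ≤ N := hN2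
      _ = N ^ 1 := (pow_one N).symm
      _ ≤ N ^ 5 := Nat.pow_le_pow_right (by omega) (by norm_num)
  set J := Nat.log 8 N with hJ
  set P : ℕ → Prop := fun q => q.Prime ∧ ¬ q ∣ a with hP
  have hcard : Fintype.card S ≤ N := by rw [Fintype.card_coe]; exact hScard
  have hLmem : ∀ q ∈ LL (Lbk z P) 0 J, z < q ∧ q ≤ z ^ 2 ^ J ∧ q.Prime ∧ ¬ q ∣ a := by
    intro q hq
    obtain ⟨j, _, h2, h3⟩ := mem_LL hq
    obtain ⟨h4, h5, h6⟩ := mem_Lbk.mp h3
    refine ⟨?_, le_trans h5 (pow_mono (by omega) (by omega)), h6.1, h6.2⟩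
    calc z = z ^ 2 ^ 0 := by simp
      _ ≤ z ^ 2 ^ j := pow_mono (by omega) (Nat.zero_le j)
      _ < q := h4
  have hnodup := LL_Lbk_nodup (z := z) (P := P) (by omega) 0 J
  obtain ⟨b, hb, hbS⟩ := hsieve N hN0 S hcard (fun q => 1 / (q : ℝ)) (Lbk z P) (blkz z) (chiG f S)
    (by
      intro k hk q hq
      obtain ⟨h4, h5, h6⟩ := mem_Lbk.mp hq
      have hzq : z < q := by
        calc z = z ^ 2 ^ 0 := by simp
          _ ≤ z ^ 2 ^ k := pow_mono (by omega) (Nat.zero_le k)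
          _ < q := h4
      have hq0 : (0 : ℝ) < q := by exact_mod_cast (by omega : 0 < q)
      refine ⟨blkz_eq (by omega) hq, hzq, h5, by positivity, ?_, ?_⟩
      · exact div_le_div_of_nonneg_right (by norm_num) hq0.le
      · intro i
        obtain ⟨g1, g2⟩ := hf q h6.1 hzq h6.2
        exact pc_chiG g1 g2 i)
    hnodup
    (fun k j _ => PP_prime_le hz2 ha haN k j)
    (Bset Y' X a W b₀) (((X : ℝ) - Y') / W * (a.totient / a)) (2 ^ a.primeFactors.card)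
    (by positivity)
    (equi_Bset ha Y' X hYX _ hnodup (fun q hq => (hLmem q hq).2.2) W b₀ hW hWa (fun q hq => by
      obtain ⟨h1, _, h3, _⟩ := hLmem q hq
      apply Nat.Coprime.symm
      rw [Nat.Prime.coprime_iff_not_dvd h3]
      intro hdvd
      have := hWp q h3 hdvd
      omega))
    hmain
  unfold Bset at hb
  rw [Finset.mem_filter, Finset.mem_Ioc] at hb
  refine ⟨b, hb.1.1, hb.1.2, hb.2.1, hb.2.2, ?_⟩
  intro n hn
  obtain ⟨q, hq, hq2⟩ := hbS ⟨n, hn⟩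
  obtain ⟨h1, h2, h3, h4⟩ := hLmem q hq
  exact ⟨q, h3, h1, h2, h4, (chiG_some hq2).symm⟩

end Pool.Agent.L2Apps
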