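import Mathlib

/-!
# Few integers have at most one prime factor in a rich set of primes
-/

namespace Pool.Agent.L2Apps

open Finset

/-- indicator of divisibility -/
noncomputable def dI (p n : ℕ) : ℝ := if p ∣ n then 1 else 0

lemma dI_nonneg (p n : ℕ) : 0 ≤ dI p n := by unfold dI; split_ifs <;> norm_num

lemma sum_dI (U p : ℕ) : ∑ n ∈ Ioc 0 U, dI p n = ((U / p : ℕ) : ℝ) := by
  unfold dI
  rw [Finset.sum_ite, Finset.sum_const_zero, add_zero, Finset.sum_const, nsmul_eq_mul, mul_one,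
    Nat.Ioc_filter_dvd_card_eq_div]

lemma sum_dI_le (U p : ℕ) : ∑ n ∈ Ioc 0 U, dI p n ≤ (U : ℝ) * (1 / p) := by
  rw [sum_dI]
  calc ((U / p : ℕ) : ℝ) ≤ (U : ℝ) / p := Nat.cast_div_le
    _ = _ := by ring

lemma sum_dI_ge (U p : ℕ) (hp : 0 < p) : (U : ℝ) * (1 / p) - 1 ≤ ∑ n ∈ Ioc 0 U, dI p n := by
  rw [sum_dI]
  have h1 : U < (U / p + 1) * p := by
    have := Nat.lt_mul_div_succ U hp
    rw [mul_comm]; exact this
  have hpR : (0:ℝ) < p := by exact_mod_cast hp
  have h2 : (U : ℝ) < ((U / p : ℕ) + 1) * p := by exact_mod_cast h1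
  have h3 : (U : ℝ) * (1 / p) < (U / p : ℕ) + 1 := by
    rw [mul_one_div, div_lt_iff₀ hpR]; exact h2
  linarith

lemma dI_mul {p q : ℕ} (h : p.Coprime q) (n : ℕ) : dI p n * dI q n = dI (p * q) n := by
  unfold dI
  by_cases h1 : p ∣ n
  · by_cases h2 : q ∣ n
    · rw [if_pos h1, if_pos h2, if_pos (h.mul_dvd_of_dvd_of_dvd h1 h2)]; norm_num
    · rw [if_pos h1, if_neg h2, if_neg (fun h3 => h2 (dvd_trans (Dvd.intro_left _ rfl) h3))]
      norm_num
  · rw [if_neg h1, if_neg (fun h3 => h1 (dvd_trans (Dvd.intro _ rfl) h3)), zero_mul]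

lemma dI_sq (p n : ℕ) : dI p n * dI p n = dI p n := by
  unfold dI; split_ifs <;> norm_num

lemma card_eq_sum_dI (P : Finset ℕ) (n : ℕ) :
    ((P.filter fun p => p ∣ n).card : ℝ) = ∑ p ∈ P, dI p n := by
  unfold dI
  rw [Finset.sum_ite, Finset.sum_const_zero, add_zero, Finset.sum_const, nsmul_eq_mul, mul_one]

/-- second moment: few integers have at most one prime factor in `P` -/
lemma few_hits (P : Finset ℕ) (hP : ∀ p ∈ P, p.Prime) (U : ℕ)
    (hs : 2 ≤ ∑ p ∈ P, 1 / (p : ℝ)) :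
    (((Ioc 0 U).filter fun n => (P.filter fun p => p ∣ n).card ≤ 1).card : ℝ) ≤
      4 * (U + 2 * P.card) / ∑ p ∈ P, 1 / (p : ℝ) := by
  set s : ℝ := ∑ p ∈ P, 1 / (p : ℝ) with hsdef
  have hs0 : 0 < s := by linarith
  set h : ℕ → ℝ := fun n => ∑ p ∈ P, dI p n with hh
  -- first moment
  have h1 : (U : ℝ) * s - P.card ≤ ∑ n ∈ Ioc 0 U, h n := by
    rw [hh]
    simp only
    rw [Finset.sum_comm]
    have : (U : ℝ) * s - P.card = ∑ p ∈ P, ((U : ℝ) * (1 / p) - 1) := by
      rw [Finset.sum_sub_distrib, ← Finset.mul_sum]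
      simp [hsdef]
    rw [this]
    exact Finset.sum_le_sum fun p hp => sum_dI_ge U p (hP p hp).pos
  -- second moment
  have h2 : ∑ n ∈ Ioc 0 U, h n ^ 2 ≤ U * s ^ 2 + U * s := by
    have e1 : ∑ n ∈ Ioc 0 U, h n ^ 2 =
        ∑ p ∈ P, ∑ q ∈ P, ∑ n ∈ Ioc 0 U, dI p n * dI q n := by
      rw [hh]
      simp only
      have : ∀ n, (∑ p ∈ P, dI p n) ^ 2 = ∑ p ∈ P, ∑ q ∈ P, dI p n * dI q n := by
        intro n
        rw [sq, Finset.sum_mul_sum]
      simp only [this]
      rw [Finset.sum_comm]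
      refine Finset.sum_congr rfl fun p _ => ?_
      rw [Finset.sum_comm]
    rw [e1]
    have e2 : (U : ℝ) * s ^ 2 + U * s =
        ∑ p ∈ P, ((∑ q ∈ P, (U : ℝ) * (1 / p) * (1 / q)) + (U : ℝ) * (1 / p)) := by
      rw [Finset.sum_add_distrib, ← Finset.mul_sum]
      congr 1
      have : ∀ p : ℕ, ∑ q ∈ P, (U : ℝ) * (1 / p) * (1 / q) = U * s * (1 / p) := by
        intro p
        rw [← Finset.mul_sum, ← hsdef]; ring
      simp only [this]
      rw [← Finset.mul_sum, ← hsdef]; ring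
    rw [e2]
    refine Finset.sum_le_sum fun p hp => ?_
    have hpp := hP p hp
    have e3 : ∑ q ∈ P, ∑ n ∈ Ioc 0 U, dI p n * dI q n =
        (∑ q ∈ P.erase p, ∑ n ∈ Ioc 0 U, dI p n * dI q n) +
          ∑ n ∈ Ioc 0 U, dI p n * dI p n := (Finset.sum_erase_add P _ hp).symm
    rw [e3]
    apply add_le_add
    · refine le_trans (Finset.sum_le_sum (g := fun q : ℕ => (U : ℝ) * (1 / p) * (1 / q))
        fun q hq => ?_) ?_
      · have hqp : q ≠ p := Finset.ne_of_mem_erase hq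
        have hqq := hP q (Finset.mem_of_mem_erase hq)
        have hcop : p.Coprime q := (Nat.coprime_primes hpp hqq).mpr (Ne.symm hqp)
        simp only [dI_mul hcop]
        refine le_trans (sum_dI_le U (p * q)) (le_of_eq ?_)
        push_cast
        ring
      · exact Finset.sum_le_sum_of_subset_of_nonneg (Finset.erase_subset _ _)
          (fun q _ _ => by positivity)
    · simp only [dI_sq]
      exact sum_dI_le U p
  -- variance
  have h3 : ∑ n ∈ Ioc 0 U, (h n - s) ^ 2 ≤ U * s + 2 * s * P.card := by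
    have e : ∑ n ∈ Ioc 0 U, (h n - s) ^ 2 =
        ∑ n ∈ Ioc 0 U, h n ^ 2 - 2 * s * ∑ n ∈ Ioc 0 U, h n + U * s ^ 2 := by
      have : ∀ n, (h n - s) ^ 2 = h n ^ 2 - 2 * s * h n + s ^ 2 := fun n => by ring
      simp only [this]
      rw [Finset.sum_add_distrib, Finset.sum_sub_distrib, ← Finset.mul_sum]
      simp
    rw [e]
    nlinarith
  -- conclusion
  have h4 : (((Ioc 0 U).filter fun n => (P.filter fun p => p ∣ n).card ≤ 1).card : ℝ) *
      (s ^ 2 / 4) ≤ ∑ n ∈ Ioc 0 U, (h n - s) ^ 2 := by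
    rw [← nsmul_eq_mul, ← Finset.sum_const]
    refine le_trans (Finset.sum_le_sum fun n hn => ?_)
      (Finset.sum_le_sum_of_subset_of_nonneg (Finset.filter_subset _ _)
        (fun n _ _ => sq_nonneg _))
    have hn1 := (Finset.mem_filter.mp hn).2
    have hn2 : h n ≤ 1 := by
      rw [hh]
      simp only
      rw [← card_eq_sum_dI]
      exact_mod_cast hn1
    nlinarith
  rw [le_div_iff₀ hs0]
  have h5 := h4.trans h3
  have h6 : (((Ioc 0 U).filter fun n => (P.filter fun p => p ∣ n).card ≤ 1).card : ℝ) * s * s ≤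
      4 * (U + 2 * P.card) * s := by nlinarith
  exact le_of_mul_le_mul_right h6 hs0

/-- A finite set of primes above `w` with a large sum of reciprocals. -/
lemma exists_rich (w : ℕ) (R : ℝ) : ∃ P : Finset ℕ, (∀ p ∈ P, p.Prime ∧ w < p) ∧
    R ≤ ∑ p ∈ P, 1 / (p : ℝ) := by
  have h1 : Filter.Tendsto (fun n => ∑ k ∈ Finset.range n,
      Set.indicator {p : ℕ | p.Prime} (fun n : ℕ => (1 : ℝ) / n) k) Filter.atTop Filter.atTop := by
    rw [← not_summable_iff_tendsto_nat_atTop_of_nonneg]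
    · exact not_summable_one_div_on_primes
    · intro n
      apply Set.indicator_nonneg
      intro i _
      positivity
  obtain ⟨n, hn⟩ := (h1.eventually_ge_atTop (R + ∑ k ∈ Finset.range (w + 1),
      Set.indicator {p : ℕ | p.Prime} (fun n : ℕ => (1 : ℝ) / n) k)).exists
  refine ⟨(Finset.range n).filter fun p => p.Prime ∧ w < p, fun p hp => (mem_filter.mp hp).2, ?_⟩
  have e : ∀ s : Finset ℕ, ∑ k ∈ s, Set.indicator {p : ℕ | p.Prime} (fun n : ℕ => (1 : ℝ) / n) k =
      ∑ k ∈ s.filter Nat.Prime, (1 : ℝ) / k := by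
    intro s
    rw [Finset.sum_filter]
    refine Finset.sum_congr rfl fun k _ => ?_
    rw [Set.indicator_apply]
    rfl
  rw [e, e] at hn
  have h2 : ∑ k ∈ (Finset.range n).filter Nat.Prime, (1 : ℝ) / k ≤
      ∑ k ∈ (Finset.range n).filter (fun p => p.Prime ∧ w < p), (1 : ℝ) / k +
      ∑ k ∈ (Finset.range (w + 1)).filter Nat.Prime, (1 : ℝ) / k := by
    rw [← Finset.sum_union]
    · refine Finset.sum_le_sum_of_subset_of_nonneg ?_ (fun i _ _ => by positivity)
      intro p hp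
      rw [mem_filter, mem_range] at hp
      rw [mem_union, mem_filter, mem_filter, mem_range, mem_range]
      by_cases hw : w < p
      · left; exact ⟨hp.1, hp.2, hw⟩
      · right; exact ⟨by omega, hp.2⟩
    · rw [Finset.disjoint_left]
      intro p hp hp'
      rw [mem_filter] at hp hp'
      rw [mem_range] at hp'
      have := hp.2.2
      omega
  linarith

end Pool.Agent.L2Apps
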