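import Pool.Agent.Lib.GapSieve.Presieve

/-!
# Presieve: few integers `n ≤ K x` avoid greedy classes mod `p ≤ w` and class `0` mod `w < p ≤ x`
-/

namespace Pool.Agent.L2Apps

open Finset Pool.Agent.Presieve
open scoped Classical

lemma exists_large_w (C : ℝ) : ∃ w : ℕ, 8 ≤ w ∧ C ≤ Real.log (w + 1) := by
  have h1 : Filter.Tendsto (fun n : ℕ => Real.log ((n : ℝ) + 1)) Filter.atTop Filter.atTop := by
    apply Real.tendsto_log_atTop.comp
    exact Filter.tendsto_atTop_add_const_right _ _ tendsto_natCast_atTop_atTop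
  obtain ⟨w, hw⟩ := ((h1.eventually_ge_atTop C).and (Filter.eventually_ge_atTop 8)).exists
  exact ⟨w, hw.2, hw.1⟩

lemma tendsto_aux (a : ℝ) (ha : 0 < a) :
    Filter.Tendsto (fun x : ℕ => Real.exp (-(Real.log x * a)) * Real.log x)
      Filter.atTop (nhds 0) := by
  have h1 : Filter.Tendsto (fun x : ℕ => Real.log (x : ℝ)) Filter.atTop Filter.atTop :=
    Real.tendsto_log_atTop.comp tendsto_natCast_atTop_atTop
  have h2 := (Real.tendsto_pow_mul_exp_neg_atTop_nhds_zero 1)
  have h3 : Filter.Tendsto (fun y : ℝ => y * Real.exp (-y)) Filter.atTop (nhds 0) := by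
    simpa using h2
  have h4 : Filter.Tendsto (fun x : ℕ => Real.log (x : ℝ) * a) Filter.atTop Filter.atTop :=
    h1.atTop_mul_const ha
  have h5 := (h3.comp h4).const_mul a⁻¹
  rw [mul_zero] at h5
  refine h5.congr fun x => ?_
  simp only [Function.comp]
  field_simp

/-- the presieve -/
lemma presieve2 (K : ℕ) (hK : 1 ≤ K) (δ : ℝ) (hδ : 0 < δ) : ∃ w x₀ : ℕ, ∀ x : ℕ, x₀ ≤ x →
    ∃ r : ℕ → ℕ, (((Ioc 0 (K * x)).filter fun n => (∀ p : ℕ, p.Prime → p ≤ w → n % p ≠ r p) ∧
      ∀ p : ℕ, p.Prime → w < p → p ≤ x → ¬ p ∣ n).card : ℝ) * Real.log x ≤ δ * x := by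
  have hKR : (1:ℝ) ≤ K := by exact_mod_cast hK
  obtain ⟨w, hw8, hw⟩ := exists_large_w (max 1 ((4 * K * K * Real.log 4) / δ))
  have hlw1 : 1 ≤ Real.log (w + 1) := le_trans (le_max_left _ _) hw
  have hlw2 : (4 * K * K * Real.log 4) / δ ≤ Real.log (w + 1) := le_trans (le_max_right _ _) hw
  have hlogw : 0 < Real.log w := Real.log_pos (by exact_mod_cast (by omega : 1 < w))
  set Cw : ℝ := Real.exp (11 * ∑ p ∈ (Ioc 0 w).filter Nat.Prime, (1 / (p : ℝ))) with hCw
  have hCw0 : 0 < Cw := Real.exp_pos _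
  have hlim := tendsto_aux (Real.log w)⁻¹ (by positivity)
  have hev : ∀ᶠ x : ℕ in Filter.atTop,
      Real.exp (-(Real.log x * (Real.log w)⁻¹)) * Real.log x < δ / (2 * K * Cw) :=
    hlim.eventually_lt_const (by positivity)
  obtain ⟨x₀, hx₀⟩ := Filter.eventually_atTop.1 (hev.and (Filter.eventually_ge_atTop (max 2 w)))
  refine ⟨w, x₀, fun x hx => ?_⟩
  obtain ⟨hx1, hx2⟩ := hx₀ x hx
  have hx2' : 2 ≤ x := le_trans (le_max_left _ _) hx2
  have hxw : w ≤ x := le_trans (le_max_right _ _) hx2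
  have hxR : (2:ℝ) ≤ x := by exact_mod_cast hx2'
  have hlx : 0 < Real.log x := Real.log_pos (by linarith)
  set U := K * x with hU
  have hU0 : 0 < U := by positivity
  set T := (Ioc 0 U).filter fun n => ∀ p : ℕ, p.Prime → w < p → p ≤ x → ¬ p ∣ n with hT
  have hTsub : T ⊆ ((Ioc 0 U).filter fun n => ∀ p : ℕ, p.Prime → p ∣ n → p ≤ w) ∪
      ((Ioc 0 U).filter fun n => ∃ p : ℕ, p.Prime ∧ x < p ∧ p ∣ n) := by
    intro n hn
    rw [hT, mem_filter] at hn
    rw [mem_union, mem_filter, mem_filter]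
    by_cases h : ∃ p : ℕ, p.Prime ∧ x < p ∧ p ∣ n
    · right; exact ⟨hn.1, h⟩
    · left
      refine ⟨hn.1, fun p hp hpn => ?_⟩
      by_contra hcon
      push Not at hcon h
      exact hn.2 p hp hcon (by
        by_contra h2
        push Not at h2
        exact h p hp h2 hpn) hpn
  have hTcard : (T.card : ℝ) ≤ U * Real.exp (- (Real.log U / Real.log w)) * Cw +
      U * (K * (2 * Real.log 4 / Real.log x)) := by
    have h1 : (T.card : ℝ) ≤
        (((Ioc 0 U).filter fun n => ∀ p : ℕ, p.Prime → p ∣ n → p ≤ w).card : ℝ) +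
        (((Ioc 0 U).filter fun n => ∃ p : ℕ, p.Prime ∧ x < p ∧ p ∣ n).card : ℝ) := by
      exact_mod_cast (card_le_card hTsub).trans (card_union_le _ _)
    refine h1.trans (add_le_add (smooth_count w U hw8 hU0) (count_big U x K hx2' ?_))
    rw [hU]
    exact Nat.mul_le_mul_right x (Nat.lt_two_pow_self).le
  obtain ⟨r, hr⟩ := greedy ((Ioc 0 w).filter Nat.Prime) (fun p hp => (mem_filter.1 hp).2.pos) T
  refine ⟨r, ?_⟩
  have h1 : (((Ioc 0 U).filter fun n => (∀ p : ℕ, p.Prime → p ≤ w → n % p ≠ r p) ∧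
      ∀ p : ℕ, p.Prime → w < p → p ≤ x → ¬ p ∣ n).card : ℝ) ≤ T.card * (1 / Real.log (w + 1)) := by
    refine le_trans ?_ (hr.trans ?_)
    · rw [Nat.cast_le]
      refine card_le_card fun n hn => ?_
      rw [mem_filter] at hn
      rw [mem_filter, hT, mem_filter]
      refine ⟨⟨hn.1, hn.2.2⟩, fun p hp => ?_⟩
      rw [mem_filter, mem_Ioc] at hp
      exact hn.2.1 p hp.2 hp.1.2
    · exact mul_le_mul_of_nonneg_left (prod_le w (by omega)) (by positivity)
  have hlw0 : 0 < Real.log ((w:ℝ) + 1) := by linarith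
  have hUR : (U : ℝ) = K * x := by rw [hU]; push_cast; ring
  -- first part
  have h2 : U * Real.exp (- (Real.log U / Real.log w)) * Cw * Real.log x ≤ δ / 2 * x := by
    have h3 : Real.exp (- (Real.log U / Real.log w)) ≤
        Real.exp (-(Real.log x * (Real.log w)⁻¹)) := by
      apply Real.exp_le_exp.mpr
      rw [neg_le_neg_iff, div_eq_mul_inv]
      apply mul_le_mul_of_nonneg_right _ (by positivity)
      apply Real.log_le_log (by linarith)
      rw [hUR]
      nlinarith
    have h4 : Real.exp (- (Real.log U / Real.log w)) * Real.log x ≤ δ / (2 * K * Cw) :=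
      (mul_le_mul_of_nonneg_right h3 hlx.le).trans hx1.le
    have h5 : U * Real.exp (- (Real.log U / Real.log w)) * Cw * Real.log x =
        (K * x * Cw) * (Real.exp (- (Real.log U / Real.log w)) * Real.log x) := by
      rw [hUR]; ring
    rw [h5]
    refine (mul_le_mul_of_nonneg_left h4 (by positivity)).trans (le_of_eq ?_)
    field_simp
  have h6 : U * (K * (2 * Real.log 4 / Real.log x)) * (1 / Real.log (w + 1)) * Real.log x ≤
      δ / 2 * x := by
    have h7 : U * (K * (2 * Real.log 4 / Real.log x)) * (1 / Real.log (w + 1)) * Real.log x =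
        (2 * K * K * Real.log 4) * x / Real.log (w + 1) := by
      rw [hUR]; field_simp
    rw [h7, div_le_iff₀ hlw0]
    rw [div_le_iff₀ hδ] at hlw2
    nlinarith
  calc (((Ioc 0 U).filter fun n => (∀ p : ℕ, p.Prime → p ≤ w → n % p ≠ r p) ∧
      ∀ p : ℕ, p.Prime → w < p → p ≤ x → ¬ p ∣ n).card : ℝ) * Real.log x
      ≤ T.card * (1 / Real.log (w + 1)) * Real.log x := mul_le_mul_of_nonneg_right h1 hlx.le
    _ ≤ (U * Real.exp (- (Real.log U / Real.log w)) * Cw +
      U * (K * (2 * Real.log 4 / Real.log x))) * (1 / Real.log (w + 1)) * Real.log x := by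
        apply mul_le_mul_of_nonneg_right _ hlx.le
        exact mul_le_mul_of_nonneg_right hTcard (by positivity)
    _ = U * Real.exp (- (Real.log U / Real.log w)) * Cw * Real.log x * (1 / Real.log (w + 1)) +
      U * (K * (2 * Real.log 4 / Real.log x)) * (1 / Real.log (w + 1)) * Real.log x := by ring
    _ ≤ δ / 2 * x * 1 + δ / 2 * x := by
        apply add_le_add _ h6
        apply mul_le_mul h2 _ (by positivity) (by positivity)
        rw [div_le_one hlw0]; exact hlw1
    _ = δ * x := by ring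

end Pool.Agent.L2Apps
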