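import Pool.Agent.Lib.L2Apps.Gen
import Pool.Agent.Lib.L2Apps.Hits
import Pool.Agent.Lib.L2Apps.Presieve2
import Pool.Agent.Lib.MP_5b0a7e_nt.Final

/-!
# Long runs of integers with at least three prime factors
-/

namespace Pool.Agent.L2Apps

open Finset

lemma three_le_length {m p q : ℕ} (hp : p.Prime) (hq : q.Prime) (hpq : p ≠ q) (h1 : p ∣ m)
    (h2 : q ∣ m) (hlt : p * q < m) : 3 ≤ m.primeFactorsList.length := by
  have hcop : p.Coprime q := (Nat.coprime_primes hp hq).mpr hpq
  obtain ⟨t, ht⟩ := hcop.mul_dvd_of_dvd_of_dvd h1 h2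
  have hm0 : m ≠ 0 := by omega
  have ht1 : 1 < t := by
    rcases Nat.lt_or_ge 1 t with h | h
    · exact h
    · exfalso
      have : p * q * t ≤ p * q * 1 := Nat.mul_le_mul_left _ h
      omega
  have h3 : ArithmeticFunction.cardFactors m = m.primeFactorsList.length := rfl
  rw [← h3, ht, ArithmeticFunction.cardFactors_mul (Nat.mul_ne_zero hp.ne_zero hq.ne_zero)
    (by omega), ArithmeticFunction.cardFactors_mul hp.ne_zero hq.ne_zero,
    ArithmeticFunction.cardFactors_apply_prime hp, ArithmeticFunction.cardFactors_apply_prime hq]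
  have h4 : 0 < ArithmeticFunction.cardFactors t := by
    rw [ArithmeticFunction.cardFactors_apply]
    rw [List.length_pos_iff]
    intro h
    rw [Nat.primeFactorsList_eq_nil] at h
    omega
  omega

/-- an assignment of distinct large primes -/
lemma exists_assign (Z PP : Finset ℕ) (h : Z.card ≤ PP.card) : ∃ ℓ : ℕ → ℕ,
    (∀ n ∈ Z, ℓ n ∈ PP) ∧ ∀ m ∈ Z, ∀ n ∈ Z, ℓ m = ℓ n → m = n := by
  have h1 : Fintype.card Z ≤ Fintype.card PP := by simpa using h
  obtain ⟨e⟩ := Function.Embedding.nonempty_of_card_le h1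
  refine ⟨fun n => if h : n ∈ Z then (e ⟨n, h⟩ : ℕ) else 2, ?_, ?_⟩
  · intro n hn
    simp only [hn, dif_pos]
    exact (e ⟨n, hn⟩).2
  · intro m hm n hn hmn
    simp only [hm, hn, dif_pos] at hmn
    have := e.injective (Subtype.ext hmn)
    exact congrArg Subtype.val this

lemma modEq_zero_add {p c n b : ℕ} (hp : 0 < p) (h1 : n % p = c % p) (h2 : b ≡ (p - 1) * c [MOD p]) :
    p ∣ b + n := by
  have h3 : b + n ≡ (p - 1) * c + c [MOD p] := Nat.ModEq.add h2 h1
  have h4 : (p - 1) * c + c = p * c := by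
    have : p - 1 + 1 = p := by omega
    calc (p - 1) * c + c = (p - 1 + 1) * c := by ring
      _ = p * c := by rw [this]
  rw [h4] at h3
  exact (Nat.modEq_zero_iff_dvd).mp (h3.trans ((Nat.modEq_zero_iff_dvd).mpr (Dvd.intro _ rfl)))

lemma many_primes : ∀ᶠ x : ℕ in Filter.atTop,
    2 * x ≤ (Nat.primeCounting (x ^ 2)) := by
  have h1 : ∀ᶠ x : ℕ in Filter.atTop, 20 * Real.log (x : ℝ) ≤ x := by
    have h2 := (Real.isLittleO_log_id_atTop.bound (show (0:ℝ) < 1 / 20 by norm_num))
    have h3 := tendsto_natCast_atTop_atTop (R := ℝ) |>.eventually h2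
    filter_upwards [h3, Filter.eventually_ge_atTop 1] with x hx hx1
    have hx1' : (1:ℝ) ≤ x := by exact_mod_cast hx1
    rw [Real.norm_of_nonneg (Real.log_nonneg hx1'), id, Real.norm_of_nonneg (by linarith)] at hx
    linarith
  filter_upwards [h1, Filter.eventually_ge_atTop 100] with x hx hx2
  have hx100 : (100:ℝ) ≤ x := by exact_mod_cast hx2
  have hlx : 0 < Real.log x := Real.log_pos (by linarith)
  have h2 := Chebyshev.pi_ge (x ^ 2)
  have h3 : (2 * x : ℝ) ≤ (((x ^ 2 : ℕ) : ℝ) * Real.log 2 - Real.log (((x ^ 2 : ℕ) : ℝ) + 1)) /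
      Real.log ((x ^ 2 : ℕ) : ℝ) := by
    push_cast
    rw [Real.log_pow, le_div_iff₀ (by positivity)]
    push_cast
    have h4 : Real.log ((x:ℝ) ^ 2 + 1) ≤ 3 * Real.log x := by
      have : 3 * Real.log x = Real.log ((x:ℝ) ^ 3) := by rw [Real.log_pow]; push_cast; ring
      rw [this]
      apply Real.log_le_log (by positivity)
      nlinarith
    have h5 : (0.69 : ℝ) ≤ Real.log 2 := by have := Real.log_two_gt_d9; linarith
    have h6 : 2 * (x:ℝ) * (2 * Real.log x) ≤ 2 * x * (x / 10) := by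
      apply mul_le_mul_of_nonneg_left _ (by positivity)
      linarith
    nlinarith
  have h7 : (2 * x : ℝ) ≤ (Nat.primeCounting (x ^ 2) : ℝ) := h3.trans (by exact_mod_cast h2)
  exact_mod_cast h7

end Pool.Agent.L2Apps
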