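import Pool.Agent.Lib.L2Apps.Omega3

/-!
# Long runs of integers with at least three prime factors: the main construction
-/

namespace Pool.Agent.L2Apps

open Finset LPAP
open scoped Classical

/-- `p` hits `n`: the class of `r` for `p ≤ w`, the class `0` for `p > w` -/
def hit (w : ℕ) (r : ℕ → ℕ) (p n : ℕ) : Prop := if p ≤ w then n % p = r p % p else p ∣ n

/-- eventually-large conditions -/
lemma eventually_big (C : ℝ) : ∀ᶠ x : ℕ in Filter.atTop, C ≤ (x : ℝ) :=
  tendsto_natCast_atTop_atTop.eventually_ge_atTop C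

lemma eventually_log (C : ℝ) (hC : 0 < C) : ∀ᶠ x : ℕ in Filter.atTop,
    C * Real.log (x : ℝ) ≤ x := by
  have h2 := (Real.isLittleO_log_id_atTop.bound (show (0:ℝ) < 1 / C by positivity))
  have h3 := tendsto_natCast_atTop_atTop (R := ℝ) |>.eventually h2
  filter_upwards [h3, Filter.eventually_ge_atTop 1] with x hx hx1
  have hx1' : (1:ℝ) ≤ x := by exact_mod_cast hx1
  rw [Real.norm_of_nonneg (Real.log_nonneg hx1'), id, Real.norm_of_nonneg (by linarith)] at hx
  calc C * Real.log x ≤ C * (1 / C * x) := mul_le_mul_of_nonneg_left hx hC.le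
    _ = x := by field_simp

theorem long_run (K : ℕ) (hK : 1 ≤ K) : ∃ x₀ : ℕ, ∀ x : ℕ, x₀ ≤ x →
    ∃ b : ℕ, x < b ∧ b ≤ 2 ^ (10 * x) ∧
      ∀ n ∈ Ioc 0 (K * x), 3 ≤ (b + n).primeFactorsList.length := by
  obtain ⟨A, hA, N₀, hmain⟩ := exists_all_hit_gen
  obtain ⟨N₁, hN₁⟩ := eventually_numeric
  have hKR : (1:ℝ) ≤ K := by exact_mod_cast hK
  set c₁ : ℝ := min 1 (1 / A) with hc₁
  have hc0 : 0 < c₁ := by rw [hc₁]; positivity
  have hc10 : c₁ ≤ 1 := min_le_left _ _
  have hcA : c₁ * A ≤ 1 := by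
    have h1 : c₁ ≤ 1 / A := min_le_right _ _
    calc c₁ * A ≤ 1 / A * A := mul_le_mul_of_nonneg_right h1 hA.le
      _ = 1 := by field_simp
  obtain ⟨w, x₁, hpre⟩ := presieve2 K hK (1 / 4) (by norm_num)
  set R : ℝ := max 2 (16 * K / c₁) with hR
  obtain ⟨P, hP, hPR⟩ := exists_rich w R
  have hR2 : 2 ≤ R := le_max_left _ _
  have hRK : 16 * K / c₁ ≤ R := le_max_right _ _
  -- all largeness conditions
  have hev : ∀ᶠ x : ℕ in Filter.atTop, x₁ ≤ x ∧ 2 * x ≤ Nat.primeCounting (x ^ 2) ∧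
      (∀ p ∈ P, p ≤ x) ∧ 32 * (P.card : ℝ) / c₁ ≤ x ∧ 100 ≤ x ∧
      ((N₀ : ℝ) + N₁ + 10) * (2 / c₁) ≤ x ∧ 10 * Real.log (x : ℝ) ≤ x ∧
      w ≤ x ∧ (K : ℝ) * (2 / c₁) ^ 3 ≤ x ∧ (2 / c₁) ^ 5 ≤ x := by
    filter_upwards [Filter.eventually_ge_atTop x₁, many_primes,
      Filter.eventually_ge_atTop (P.sup id), eventually_big (32 * (P.card : ℝ) / c₁),
      Filter.eventually_ge_atTop 100, eventually_big (((N₀ : ℝ) + N₁ + 10) * (2 / c₁)),
      eventually_log 10 (by norm_num), Filter.eventually_ge_atTop w,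
      eventually_big ((K : ℝ) * (2 / c₁) ^ 3), eventually_big ((2 / c₁) ^ 5)]
      with x h1 h2 h3 h4 h5 h6 h7 h8 h9 h10
    exact ⟨h1, h2, fun p hp => le_trans (Finset.le_sup (f := id) hp) h3, h4, h5, h6, h7, h8, h9,
      h10⟩
  obtain ⟨x₀, hx₀⟩ := Filter.eventually_atTop.1 hev
  refine ⟨x₀, fun x hx => ?_⟩
  obtain ⟨hxx₁, hxprimes, hPx, hxP, hx100, hxN, hxlog, hxw, hxKc, hxc5⟩ := hx₀ x hx
  have hxR : (100:ℝ) ≤ x := by exact_mod_cast hx100
  have hx0R : (0:ℝ) < x := by linarith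
  have hlx : 0 < Real.log x := Real.log_pos (by linarith)
  have hlx1 : 1 ≤ Real.log x := by
    rw [Real.le_log_iff_exp_le hx0R]
    have := Real.exp_one_lt_d9
    linarith
  obtain ⟨r, hr⟩ := hpre x hxx₁
  -- N
  set N := ⌊c₁ * x⌋₊ with hN
  have hNle : (N : ℝ) ≤ c₁ * x := Nat.floor_le (by positivity)
  have hNgt : c₁ * x < N + 1 := Nat.lt_floor_add_one _
  have hcx : ((N₀ : ℝ) + N₁ + 10) ≤ c₁ * x / 2 := by
    have h1 := mul_le_mul_of_nonneg_left hxN (by positivity : 0 ≤ c₁ / 2)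
    have h2 : c₁ / 2 * (((N₀ : ℝ) + N₁ + 10) * (2 / c₁)) = (N₀ : ℝ) + N₁ + 10 := by
      field_simp
    rw [h2] at h1
    linarith
  have hN0' : (0 : ℝ) ≤ N₀ := Nat.cast_nonneg _
  have hN1' : (0 : ℝ) ≤ N₁ := Nat.cast_nonneg _
  have hNhalf : c₁ * x / 2 ≤ N := by linarith
  have hNbig : (N₀ : ℝ) + N₁ + 10 ≤ N := by linarith
  have hNN₀ : N₀ ≤ N := by
    have : (N₀ : ℝ) ≤ N := by linarith
    exact_mod_cast this
  have hNN₁ : N₁ ≤ N := by
    have : (N₁ : ℝ) ≤ N := by linarith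
    exact_mod_cast this
  have hN10 : 10 ≤ N := by
    have : (10 : ℝ) ≤ N := by linarith
    exact_mod_cast this
  have hNR : (10 : ℝ) ≤ N := by exact_mod_cast hN10
  have hNx : (N : ℝ) ≤ x := by nlinarith
  obtain ⟨hlog10, hlog6⟩ := hN₁ N hNN₁
  -- x ^ 2 ≤ N ^ 5 and K x < N ^ 5
  have hhalf : (c₁ / 2) * x ≤ N := by linarith
  have hinv : (c₁ / 2) * (2 / c₁) = 1 := by field_simp
  have hx2N : x ^ 2 ≤ N ^ 5 := by
    have h1 : ((c₁ / 2) * x) ^ 5 ≤ (N : ℝ) ^ 5 := pow_le_pow_left₀ (by positivity) hhalf 5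
    have h2 : (x : ℝ) ^ 2 ≤ ((c₁ / 2) * x) ^ 5 := by
      have h3 : (1:ℝ) ≤ (c₁ / 2) ^ 5 * x := by
        have := mul_le_mul_of_nonneg_left hxc5 (by positivity : 0 ≤ (c₁ / 2) ^ 5)
        rw [← mul_pow, hinv, one_pow] at this
        exact this
      have h4 : ((c₁ / 2) * x) ^ 5 = ((c₁ / 2) ^ 5 * x) * x ^ 4 := by ring
      rw [h4]
      have h5 : (x:ℝ) ^ 2 ≤ x ^ 4 := pow_le_pow_right₀ (by linarith) (by norm_num)
      nlinarith [pow_pos hx0R 4]
    exact_mod_cast h2.trans h1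
  have hKN : K * x < N ^ 5 := by
    have h1 : ((c₁ / 2) * x) ^ 3 ≤ (N : ℝ) ^ 3 := pow_le_pow_left₀ (by positivity) hhalf 3
    have h2 : (K : ℝ) ≤ (c₁ / 2) ^ 3 * x := by
      have := mul_le_mul_of_nonneg_left hxKc (by positivity : 0 ≤ (c₁ / 2) ^ 3)
      have h3 : (c₁ / 2) ^ 3 * (K * (2 / c₁) ^ 3) = K * ((c₁ / 2) * (2 / c₁)) ^ 3 := by ring
      rw [h3, hinv] at this
      linarith
    have h4 : (K : ℝ) * x * x ≤ (N : ℝ) ^ 3 := by
      refine le_trans ?_ h1
      have : ((c₁ / 2) * x) ^ 3 = ((c₁ / 2) ^ 3 * x) * x * x := by ring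
      rw [this]
      have h5 : 0 ≤ (x:ℝ) * x := by positivity
      nlinarith
    have h6 : (K : ℝ) * x < (N : ℝ) ^ 5 := by
      have h7 : (N : ℝ) ^ 3 < (N : ℝ) ^ 5 := pow_lt_pow_right₀ (by linarith) (by norm_num)
      have h8 : (K : ℝ) * x ≤ K * x * x := by
        have : (0:ℝ) ≤ K * x := by positivity
        nlinarith
      linarith
    exact_mod_cast h6
  -- the sites
  set U := K * x with hU
  set S := (Ioc 0 U).filter fun n =>
    (((Ioc 0 x).filter Nat.Prime).filter fun p => hit w r p n).card ≤ 1 with hS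
  set Z := (Ioc 0 U).filter fun n => (∀ p : ℕ, p.Prime → p ≤ w → n % p ≠ r p) ∧
      ∀ p : ℕ, p.Prime → w < p → p ≤ x → ¬ p ∣ n with hZ
  have hScard : S.card ≤ N := by
    have h1 : S ⊆ (Ioc 0 U).filter fun n => (P.filter fun p => p ∣ n).card ≤ 1 := by
      intro n hn
      rw [hS, mem_filter] at hn
      rw [mem_filter]
      refine ⟨hn.1, le_trans (card_le_card ?_) hn.2⟩
      intro p hp
      rw [mem_filter] at hp
      obtain ⟨h2, h3⟩ := hP p hp.1
      rw [mem_filter, mem_filter, mem_Ioc]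
      refine ⟨⟨⟨h2.pos, hPx p hp.1⟩, h2⟩, ?_⟩
      unfold hit
      rw [if_neg (by omega)]
      exact hp.2
    have h2 := few_hits P (fun p hp => (hP p hp).1) U (hR2.trans hPR)
    have h3 : (S.card : ℝ) ≤ 4 * (U + 2 * P.card) / ∑ p ∈ P, 1 / (p : ℝ) := by
      refine le_trans ?_ h2
      rw [Nat.cast_le]
      refine le_trans (card_le_card h1) (le_of_eq ?_)
      congr!
    have hsum0 : 0 < ∑ p ∈ P, 1 / (p : ℝ) := by linarith
    have h4 : 4 * ((U : ℝ) + 2 * P.card) / ∑ p ∈ P, 1 / (p : ℝ) ≤ c₁ * x / 2 := by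
      rw [div_le_iff₀ hsum0]
      have h5 : 4 * ((U : ℝ) + 2 * P.card) ≤ c₁ * x / 2 * R := by
        have h6 : 16 * (K : ℝ) ≤ c₁ * R := by
          rw [div_le_iff₀ hc0] at hRK; linarith
        have h7 : 32 * (P.card : ℝ) ≤ c₁ * x := by
          rw [div_le_iff₀ hc0] at hxP; linarith
        have hUR : (U : ℝ) = K * x := by rw [hU]; push_cast; ring
        rw [hUR]
        have h8 : 4 * (K * (x:ℝ)) ≤ c₁ * x / 4 * R := by nlinarith
        have h9 : 8 * (P.card : ℝ) ≤ c₁ * x / 4 * R := by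
          have : 0 ≤ c₁ * x / 4 := by positivity
          nlinarith
        linarith
      exact h5.trans (mul_le_mul_of_nonneg_left hPR (by positivity))
    have h10 : (S.card : ℝ) ≤ N := h3.trans (h4.trans hNhalf)
    exact_mod_cast h10
  -- assignment of large primes to Z
  have hZx : (Z.card : ℝ) * Real.log x ≤ 1 / 4 * x := hr
  have hZcard : Z.card ≤ x := by
    have h1 : (Z.card : ℝ) ≤ Z.card * Real.log x := by
      have : (0:ℝ) ≤ Z.card := Nat.cast_nonneg _
      nlinarith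
    have h2 : (Z.card : ℝ) ≤ x := by linarith
    exact_mod_cast h2
  set PP := (Ioc x (x ^ 2)).filter Nat.Prime with hPP
  have hPPcard : Z.card ≤ PP.card := by
    have h1 : Nat.primeCounting (x ^ 2) ≤ PP.card + x := by
      have h2 : Nat.primeCounting (x ^ 2) = ((Ioc 0 (x ^ 2)).filter Nat.Prime).card := by
        rw [Nat.primeCounting, Nat.primeCounting', Nat.count_eq_card_filter_range]
        congr 1
        ext p
        rw [mem_filter, mem_filter, mem_range, mem_Ioc]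
        constructor
        · rintro ⟨h3, h4⟩; exact ⟨⟨h4.pos, by omega⟩, h4⟩
        · rintro ⟨h3, h4⟩; exact ⟨by omega, h4⟩
      rw [h2]
      have h3 : ((Ioc 0 (x ^ 2)).filter Nat.Prime) ⊆ PP ∪ Ioc 0 x := by
        intro p hp
        rw [mem_filter, mem_Ioc] at hp
        rw [mem_union, hPP, mem_filter, mem_Ioc, mem_Ioc]
        by_cases h : x < p
        · left; exact ⟨⟨h, hp.1.2⟩, hp.2⟩
        · right; exact ⟨hp.1.1, by omega⟩
      refine (card_le_card h3).trans ((card_union_le _ _).trans ?_)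
      rw [Nat.card_Ioc, Nat.sub_zero]
    omega
  obtain ⟨ℓ, hℓ1, hℓ2⟩ := exists_assign Z PP hPPcard
  have hℓp : ∀ n ∈ Z, (ℓ n).Prime ∧ x < ℓ n ∧ ℓ n ≤ x ^ 2 := by
    intro n hn
    have := hℓ1 n hn
    rw [hPP, mem_filter, mem_Ioc] at this
    exact ⟨this.2, this.1.1, this.1.2⟩
  -- the moduli
  set P1 := (Ioc 0 x).filter Nat.Prime with hP1
  set W1 := ∏ p ∈ P1, p with hW1
  set W2 := ∏ n ∈ Z, ℓ n with hW2
  have hW1pos : 0 < W1 := Finset.prod_pos fun p hp => (mem_filter.mp hp).2.pos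
  have hW2pos : 0 < W2 := Finset.prod_pos fun n hn => (hℓp n hn).1.pos
  have hcop12 : W1.Coprime W2 := by
    apply Nat.Coprime.prod_left
    intro p hp
    apply Nat.Coprime.prod_right
    intro n hn
    rw [hP1, mem_filter, mem_Ioc] at hp
    obtain ⟨h1, h2, _⟩ := hℓp n hn
    rw [Nat.coprime_primes hp.2 h1]
    omega
  obtain ⟨b1, hb1⟩ := Nat.chineseRemainderOfFinset
    (fun p => if p ≤ w then (p - 1) * r p else 0) (fun p => p) P1
    (fun p hp => (mem_filter.mp hp).2.ne_zero)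
    (fun p hp q hq hpq => (Nat.coprime_primes (mem_filter.mp hp).2 (mem_filter.mp hq).2).mpr hpq)
  obtain ⟨b2, hb2⟩ := Nat.chineseRemainderOfFinset
    (fun n => (ℓ n - 1) * n) (fun n => ℓ n) Z
    (fun n hn => (hℓp n hn).1.ne_zero)
    (fun m hm n hn hmn => (Nat.coprime_primes (hℓp m hm).1 (hℓp n hn).1).mpr
      (fun h => hmn (hℓ2 m hm n hn h)))
  set b₀ := (Nat.chineseRemainder hcop12 b1 b2 : ℕ) with hb₀
  have hb₀1 : b₀ ≡ b1 [MOD W1] := (Nat.chineseRemainder hcop12 b1 b2).2.1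
  have hb₀2 : b₀ ≡ b2 [MOD W2] := (Nat.chineseRemainder hcop12 b1 b2).2.2
  -- sizes
  have hW1le : (W1 : ℝ) ≤ Real.exp (1.4 * x) := by
    have h1 : W1 ≤ 4 ^ x := by
      have h2 : W1 = primorial x := by
        rw [hW1, primorial]
        apply Finset.prod_congr _ (fun _ _ => rfl)
        ext p
        rw [hP1, mem_filter, mem_filter, mem_range, mem_Ioc]
        constructor
        · rintro ⟨h3, h4⟩; exact ⟨by omega, h4⟩
        · rintro ⟨h3, h4⟩; exact ⟨⟨h4.pos, by omega⟩, h4⟩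
      rw [h2]; exact primorial_le_four_pow x
    have h2 : (W1 : ℝ) ≤ (4 : ℝ) ^ x := by exact_mod_cast h1
    refine h2.trans ?_
    have h3 : (4 : ℝ) ^ x = Real.exp (x * Real.log 4) := by
      rw [Real.exp_nat_mul, Real.exp_log (by norm_num)]
    rw [h3]
    apply Real.exp_le_exp.mpr
    have h4 : Real.log 4 ≤ 1.4 := by
      have h5 : Real.log 4 = 2 * Real.log 2 := by
        have : (4 : ℝ) = 2 ^ 2 := by norm_num
        rw [this, Real.log_pow]; norm_num
      rw [h5]
      have := Real.log_two_lt_d9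
      linarith
    nlinarith
  have hW2le : (W2 : ℝ) ≤ Real.exp (0.5 * x) := by
    have h1 : (W2 : ℝ) ≤ ((x:ℝ) ^ 2) ^ Z.card := by
      rw [hW2]
      push_cast
      refine (Finset.prod_le_prod (fun n _ => Nat.cast_nonneg _) (g := fun _ => (x:ℝ) ^ 2)
        (fun n hn => by exact_mod_cast (hℓp n hn).2.2)).trans ?_
      rw [Finset.prod_const]
    refine h1.trans ?_
    have h3 : ((x:ℝ) ^ 2) ^ Z.card = Real.exp (2 * (Z.card * Real.log x)) := by
      rw [← pow_mul, mul_comm 2 Z.card, pow_mul]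
      have h4 : (x:ℝ) ^ Z.card = Real.exp (Z.card * Real.log x) := by
        rw [Real.exp_nat_mul, Real.exp_log hx0R]
      rw [h4, ← Real.exp_nat_mul]
      norm_num
    rw [h3]
    apply Real.exp_le_exp.mpr
    linarith
  set W := W1 * W2 with hW
  have hWpos : 0 < W := Nat.mul_pos hW1pos hW2pos
  have hWR : (0:ℝ) < W := by exact_mod_cast hWpos
  have hWle : (W : ℝ) ≤ Real.exp (1.9 * x) := by
    rw [hW]; push_cast
    calc (W1 : ℝ) * W2 ≤ Real.exp (1.4 * x) * Real.exp (0.5 * x) :=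
          mul_le_mul hW1le hW2le (Nat.cast_nonneg _) (Real.exp_pos _).le
      _ = Real.exp (1.9 * x) := by rw [← Real.exp_add]; congr 1; ring
  set Y := (N ^ 5) ^ 2 ^ (Nat.log 8 N) with hY
  have hYexp : (Y : ℝ) ≤ Real.exp x := by
    refine le_trans (log_Y_le hlog10 hlog6 (by omega)) ?_
    exact Real.exp_le_exp.mpr hNx
  set Y' := N ^ 5 * Y with hY'
  have hN5exp : ((N ^ 5 : ℕ) : ℝ) ≤ Real.exp x := by
    push_cast
    have h1 : (N : ℝ) ^ 5 ≤ (x:ℝ) ^ 5 := pow_le_pow_left₀ (by linarith) hNx 5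
    refine h1.trans ?_
    have h2 : (x:ℝ) ^ 5 = Real.exp (5 * Real.log x) := by
      have : Real.exp (((5 : ℕ) : ℝ) * Real.log x) = Real.exp (Real.log x) ^ 5 :=
        Real.exp_nat_mul _ 5
      rw [Real.exp_log hx0R] at this
      rw [← this]; norm_num
    rw [h2]
    apply Real.exp_le_exp.mpr
    linarith
  have hY'exp : (Y' : ℝ) ≤ Real.exp (2 * x) := by
    rw [hY']; push_cast
    push_cast at hN5exp
    calc (N : ℝ) ^ 5 * Y ≤ Real.exp x * Real.exp x :=
          mul_le_mul hN5exp hYexp (Nat.cast_nonneg _) (Real.exp_pos _).le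
      _ = Real.exp (2 * x) := by rw [← Real.exp_add]; congr 1; ring
  set X := 2 ^ (10 * x) with hX
  have hXR : Real.exp (6.9 * x) ≤ (X : ℝ) := by
    rw [hX]; push_cast
    have h1 : (2 : ℝ) ^ (10 * x) = Real.exp (((10 * x : ℕ) : ℝ) * Real.log 2) := by
      rw [Real.exp_nat_mul, Real.exp_log (by norm_num)]
    rw [h1]
    apply Real.exp_le_exp.mpr
    push_cast
    have := Real.log_two_gt_d9
    nlinarith
  have hexp2 : (2:ℝ) * Real.exp (2 * x) ≤ Real.exp (6.9 * x) := by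
    have h1 : Real.exp (6.9 * x) = Real.exp (4.9 * x) * Real.exp (2 * x) := by
      rw [← Real.exp_add]; congr 1; ring
    have h2 : (2 : ℝ) ≤ Real.exp (4.9 * x) := by
      have := Real.add_one_le_exp (4.9 * (x:ℝ)); linarith
    rw [h1]
    exact mul_le_mul_of_nonneg_right h2 (Real.exp_pos _).le
  have hY'X : Y' ≤ X := by
    have h1 : (Y' : ℝ) ≤ X := by
      have := Real.exp_pos (2 * (x:ℝ))
      linarith
    exact_mod_cast h1
  have hineq : (2 : ℝ) ^ (Nat.primeFactors 1).card * Real.exp (A * N) <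
      ((X : ℝ) - Y') / W * (Nat.totient 1 / (1 : ℕ)) := by
    rw [Nat.primeFactors_one, Finset.card_empty, pow_zero, one_mul, Nat.totient_one]
    norm_num
    have h1 : Real.exp (A * N) ≤ Real.exp x := by
      apply Real.exp_le_exp.mpr
      calc A * (N : ℝ) ≤ A * (c₁ * x) := mul_le_mul_of_nonneg_left hNle hA.le
        _ = (c₁ * A) * x := by ring
        _ ≤ 1 * x := mul_le_mul_of_nonneg_right hcA hx0R.le
        _ = x := one_mul _
    have h2 : Real.exp (6.9 * x) / 2 ≤ (X : ℝ) - Y' := by linarith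
    rw [lt_div_iff₀ hWR]
    calc Real.exp (A * N) * W ≤ Real.exp x * Real.exp (1.9 * x) :=
          mul_le_mul h1 hWle hWR.le (Real.exp_pos _).le
      _ = Real.exp (2.9 * x) := by rw [← Real.exp_add]; congr 1; ring
      _ < Real.exp (6.9 * x) / 2 := by
          have h3 : Real.exp (6.9 * x) = Real.exp (4 * x) * Real.exp (2.9 * x) := by
            rw [← Real.exp_add]; congr 1; ring
          rw [h3]
          have h4 : (2 : ℝ) < Real.exp (4 * x) := by
            have := Real.add_one_le_exp (4 * (x:ℝ)); linarith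
          have := Real.exp_pos (2.9 * (x:ℝ))
          nlinarith
      _ ≤ (X : ℝ) - Y' := h2
  -- apply the sieve
  have hprimesW : ∀ p, p.Prime → p ∣ W → p ≤ N ^ 5 := by
    intro p hp hpW
    rw [hW] at hpW
    rcases (hp.dvd_mul).mp hpW with h | h
    · obtain ⟨q, hq, hpq⟩ := (hp.prime.dvd_finset_prod_iff _).mp h
      rw [hP1, mem_filter, mem_Ioc] at hq
      have h1 := (Nat.prime_dvd_prime_iff_eq hp hq.2).mp hpq
      have h2 : x ≤ x ^ 2 := Nat.le_self_pow (by norm_num) x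
      omega
    · obtain ⟨n, hn, hpq⟩ := (hp.prime.dvd_finset_prod_iff _).mp h
      obtain ⟨h1, _, h3⟩ := hℓp n hn
      have h2 := (Nat.prime_dvd_prime_iff_eq hp h1).mp hpq
      omega
  obtain ⟨b, hbY, hbX, hbb₀, -, hbS⟩ := hmain N hNN₀ 1 Y' X one_ne_zero S hScard (by simp)
    (fun n q => q - n) (by
      intro q hq hqN _
      constructor
      · intro n hn
        rw [hS, mem_filter, mem_Ioc] at hn
        have := hq.pos
        omega
      · intro m hm n hn hmn
        rw [hS, mem_filter, mem_Ioc] at hm hn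
        omega)
    W hWpos (Nat.coprime_one_right W) hprimesW hY'X hineq b₀
  have hN5pos : 0 < N ^ 5 := by positivity
  have hYpos : 0 < Y := by rw [hY]; positivity
  have hN5Y : N ^ 5 ≤ Y := by
    rw [hY]
    calc N ^ 5 = (N ^ 5) ^ 1 := (pow_one _).symm
      _ ≤ (N ^ 5) ^ 2 ^ (Nat.log 8 N) := Nat.pow_le_pow_right (by positivity) Nat.one_le_two_pow
  have hxN5 : x ≤ N ^ 5 := le_trans (Nat.le_self_pow (by norm_num) x) hx2N
  refine ⟨b, ?_, hbX, ?_⟩
  · have : N ^ 5 * 1 ≤ N ^ 5 * Y := Nat.mul_le_mul_left _ hYpos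
    omega
  intro n hn
  have hsmall : ∀ p ∈ P1, hit w r p n → p ∣ b + n := by
    intro p hp hpn
    have hpp := (mem_filter.mp hp).2
    have h1 : b ≡ (if p ≤ w then (p - 1) * r p else 0) [MOD p] := by
      have h2 : p ∣ W1 := Finset.dvd_prod_of_mem _ hp
      have h3 : b ≡ b₀ [MOD p] := hbb₀.of_dvd (h2.mul_right W2)
      exact h3.trans ((hb₀1.of_dvd h2).trans (hb1 p hp))
    unfold hit at hpn
    by_cases hpw : p ≤ w
    · rw [if_pos hpw] at hpn h1
      exact modEq_zero_add hpp.pos hpn h1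
    · rw [if_neg hpw] at hpn h1
      exact (Nat.dvd_add_right ((Nat.modEq_zero_iff_dvd).mp h1)).mpr hpn
  by_cases hnS : n ∈ S
  · obtain ⟨q, hq, hqN, hqY, _, hqb⟩ := hbS n hnS
    have hnlt : n < N ^ 5 := by
      rw [mem_Ioc] at hn; omega
    have hn0 : 0 < n := (mem_Ioc.mp hn).1
    have hqd : q ∣ b + n := by
      have h1 : b = q - n + q * (b / q) := by
        have := Nat.mod_add_div b q
        omega
      have h2 : b + n = q * (b / q + 1) := by
        have h3 : q * (b / q + 1) = q * (b / q) + q := by ring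
        omega
      rw [h2]; exact Dvd.intro _ rfl
    by_cases hnZ : n ∈ Z
    · obtain ⟨h1, h2, h3⟩ := hℓp n hnZ
      have h4 : ℓ n ∣ b + n := by
        apply modEq_zero_add h1.pos (rfl : n % ℓ n = n % ℓ n)
        have h5 : ℓ n ∣ W2 := Finset.dvd_prod_of_mem _ hnZ
        have h6 : b ≡ b₀ [MOD ℓ n] := hbb₀.of_dvd (h5.mul_left W1)
        exact h6.trans ((hb₀2.of_dvd h5).trans (hb2 n hnZ))
      apply three_le_length h1 hq (by omega) h4 hqd
      have h7 : ℓ n * q ≤ N ^ 5 * Y := Nat.mul_le_mul (by omega) hqY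
      omega
    · -- one small hit
      have h1 : ∃ p ∈ P1, hit w r p n := by
        by_contra hcon
        push Not at hcon
        apply hnZ
        rw [hZ, mem_filter]
        refine ⟨hn, ?_, ?_⟩
        · intro p hp hpw hpr
          have hwx : p ∈ P1 ∨ x < p := by
            by_cases h : p ≤ x
            · left; rw [hP1, mem_filter, mem_Ioc]; exact ⟨⟨hp.pos, h⟩, hp⟩
            · right; omega
          rcases hwx with h | h
          · apply hcon p h
            unfold hit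
            rw [if_pos hpw, ← hpr, Nat.mod_mod]
          · omega
        · intro p hp hpw hpx hpn
          apply hcon p (by rw [hP1, mem_filter, mem_Ioc]; exact ⟨⟨hp.pos, hpx⟩, hp⟩)
          unfold hit
          rw [if_neg (by omega)]
          exact hpn
      obtain ⟨p, hp, hpn⟩ := h1
      have hpd := hsmall p hp hpn
      have hpp := (mem_filter.mp hp).2
      have hpx := (mem_Ioc.mp (mem_filter.mp hp).1).2
      apply three_le_length hpp hq (by omega) hpd hqd
      have h7 : p * q ≤ N ^ 5 * Y := Nat.mul_le_mul (by omega) hqY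
      omega
  · -- two small hits
    have h1 : 1 < (P1.filter fun p => hit w r p n).card := by
      by_contra hcon
      push Not at hcon
      apply hnS
      rw [hS, mem_filter]
      exact ⟨hn, hcon⟩
    obtain ⟨p, hp, q, hq, hpq⟩ := Finset.one_lt_card.mp h1
    rw [mem_filter] at hp hq
    have hpp := (mem_filter.mp hp.1).2
    have hpx := (mem_Ioc.mp (mem_filter.mp hp.1).1).2
    have hqp := (mem_filter.mp hq.1).2
    have hqx := (mem_Ioc.mp (mem_filter.mp hq.1).1).2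
    apply three_le_length hpp hqp hpq (hsmall p hp.1 hp.2) (hsmall q hq.1 hq.2)
    have h7 : p * q ≤ x * x := Nat.mul_le_mul hpx hqx
    have h8 : x * x = x ^ 2 := (sq x).symm
    have h9 : N ^ 5 * 1 ≤ N ^ 5 * Y := Nat.mul_le_mul_left _ hYpos
    omega

end Pool.Agent.L2Apps
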